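import Mathlib
import Pool.Agent.Helper49.FTestDefs

set_option autoImplicit false

namespace Pool.Agent.Helper49.FA

open MeasureTheory Set Filter Topology Complex
open scoped ContDiff ComplexConjugate

theorem eq_zero_of_fderiv_bound {E F : Type*} [NormedAddCommGroup E] [NormedSpace ℝ E]
    [NormedAddCommGroup F] [NormedSpace ℝ F] {f : E → F} {x : E} {r C : ℝ}
    (hf : ∀ y ∈ Metric.ball x r, DifferentiableAt ℝ f y)
    (hC : ∀ y ∈ Metric.ball x r, ‖fderiv ℝ f y‖ ≤ C * ‖f y‖) (h0 : f x = 0) :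
    ∀ y ∈ Metric.ball x r, f y = 0 := by
  intro y hy
  have hr : 0 < r := lt_of_le_of_lt dist_nonneg (Metric.mem_ball.mp hy)
  have hseg : ∀ t ∈ Set.Icc (0:ℝ) 1, x + t • (y - x) ∈ Metric.ball x r := by
    intro t ht
    rw [Metric.mem_ball, dist_eq_norm, add_sub_cancel_left, norm_smul, Real.norm_eq_abs,
      abs_of_nonneg ht.1]
    rw [Metric.mem_ball, dist_eq_norm] at hy
    calc t * ‖y - x‖ ≤ 1 * ‖y - x‖ := mul_le_mul_of_nonneg_right ht.2 (norm_nonneg _)
      _ < r := by rw [one_mul]; exact hy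
  have hder : ∀ t ∈ Set.Icc (0:ℝ) 1, HasDerivAt (fun t : ℝ => f (x + t • (y - x)))
      (fderiv ℝ f (x + t • (y - x)) (y - x)) t := by
    intro t ht
    have h1 : HasDerivAt (fun t : ℝ => x + t • (y - x)) (y - x) t := by
      have := ((hasDerivAt_id t).smul_const (y - x)).const_add x
      simpa using this
    exact (hf _ (hseg t ht)).hasFDerivAt.comp_hasDerivAt t h1
  have hg := norm_le_gronwallBound_of_norm_deriv_right_le (f := fun t : ℝ => f (x + t • (y - x)))
    (f' := fun t : ℝ => fderiv ℝ f (x + t • (y - x)) (y - x)) (δ := 0) (K := C * ‖y - x‖) (ε := 0)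
    (a := 0) (b := 1) (fun t ht => (hder t ht).continuousAt.continuousWithinAt)
    (fun t ht => (hder t ⟨ht.1, ht.2.le⟩).hasDerivWithinAt) (by simp [h0]) (by
      intro t ht
      have h1 := hC _ (hseg t ⟨ht.1, ht.2.le⟩)
      calc ‖fderiv ℝ f (x + t • (y - x)) (y - x)‖ ≤ ‖fderiv ℝ f (x + t • (y - x))‖ * ‖y - x‖ :=
            ContinuousLinearMap.le_opNorm _ _
        _ ≤ (C * ‖f (x + t • (y - x))‖) * ‖y - x‖ := mul_le_mul_of_nonneg_right h1 (norm_nonneg _)
        _ = C * ‖y - x‖ * ‖f (x + t • (y - x))‖ + 0 := by ring) 1 ⟨by norm_num, le_rfl⟩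
  rw [gronwallBound_ε0_δ0] at hg
  have := norm_le_zero_iff.mp hg
  simpa using this

theorem isInv (L : ℝ →L[ℝ] ℝ) (h : L 1 ≠ 0) : L.IsInvertible := by
  refine ⟨ContinuousLinearEquiv.unitsEquivAut ℝ (Units.mk0 (L 1) h), ?_⟩
  ext
  simp

/-- local implicit function, smooth on a neighbourhood -/
theorem exists_implicit_local {E : Type*} [NormedAddCommGroup E] [NormedSpace ℝ E] [CompleteSpace E]
    {H : E × ℝ → ℝ} (hH : ContDiff ℝ ∞ H) {u : E × ℝ} (hu : H u = 0)
    (hd : fderiv ℝ H u (0, 1) ≠ 0) :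
    ∃ ψ : E → ℝ, ψ u.1 = u.2 ∧ ∀ᶠ y in 𝓝 u.1, ContDiffAt ℝ ∞ ψ y ∧ H (y, ψ y) = 0 := by
  have pn : (∞ : ℕ∞ω) ≠ 0 := by simp
  have hinv : ∀ v : E × ℝ, fderiv ℝ H v (0, 1) ≠ 0 →
      (fderiv ℝ H v ∘L .inr ℝ E ℝ).IsInvertible := by
    intro v hv
    exact isInv _ (by simpa using hv)
  have cd : ∀ v, ContDiffAt ℝ ∞ H v := fun v => hH.contDiffAt
  set ψ := (cd u).implicitFunction pn (hinv u hd) with hψ
  have e0 : ψ u.1 = u.2 := (cd u).implicitFunction_apply_self pn (hinv u hd)
  have e1 : ContDiffAt ℝ ∞ ψ u.1 := (cd u).contDiffAt_implicitFunction pn (hinv u hd)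
  have e2 : ∀ᶠ y in 𝓝 u.1, H (y, ψ y) = 0 := by
    have := (cd u).eventually_apply_implicitFunction pn (hinv u hd)
    rwa [hu] at this
  have e3 : ∀ᶠ y in 𝓝 u.1, ContinuousAt ψ y := by
    have h1 : ContDiffAt ℝ 1 ψ u.1 := e1.of_le (by simp)
    exact (h1.eventually (by simp)).mono fun y hy => hy.continuousAt
  have e4 : ∀ᶠ y in 𝓝 u.1, fderiv ℝ H (y, ψ y) (0, 1) ≠ 0 := by
    have hc : ContinuousAt (fun y => fderiv ℝ H (y, ψ y) (0, 1)) u.1 := by
      have hc1 : Continuous fun v : E × ℝ => fderiv ℝ H v (0, 1) :=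
        (hH.continuous_fderiv (by simp)).clm_apply continuous_const
      have hc2 : ContinuousAt (fun y => (y, ψ y)) u.1 := continuousAt_id.prodMk e1.continuousAt
      exact hc1.continuousAt.comp hc2
    have : (fun y => fderiv ℝ H (y, ψ y) (0, 1)) u.1 ≠ 0 := by
      simp only [e0]; exact hd
    exact hc.eventually_ne this
  refine ⟨ψ, e0, ?_⟩
  filter_upwards [e2.eventually_nhds, e3, e4] with y h2 h3 h4
  refine ⟨?_, h2.self_of_nhds⟩
  set v0 : E × ℝ := (y, ψ y) with hv0
  have hv00 : H v0 = 0 := h2.self_of_nhds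
  have g1 : ContDiffAt ℝ ∞ ((cd v0).implicitFunction pn (hinv v0 h4)) y :=
    (cd v0).contDiffAt_implicitFunction pn (hinv v0 h4)
  have g2 := (cd v0).eventually_apply_eq_iff_implicitFunction pn (hinv v0 h4)
  have hc2 : Tendsto (fun y' => (y', ψ y')) (𝓝 y) (𝓝 v0) :=
    (continuousAt_id.prodMk h3 : ContinuousAt (fun y => (id y, ψ y)) y)
  have g3 := hc2.eventually g2
  refine g1.congr_of_eventuallyEq ?_
  filter_upwards [g3, h2] with y' h5 h6
  exact ((h5.mp (by rw [h6, hv00]))).symm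

theorem exists_implicit {n : ℕ} {f : (Fin n → ℝ) → ℝ} (hf : ContDiff ℝ ∞ f) (S : Finset (Fin n)) {j : Fin n}
    (hj : j ∉ S) (hdep : ∀ θ θ' : Fin n → ℝ, (∀ k ∈ insert j S, θ k = θ' k) → f θ = f θ') {x : Fin n → ℝ}
    (hx : f x = 0) (hd : fderiv ℝ f x (Pi.single j 1) ≠ 0) :
    ∃ β : (Fin n → ℝ) → ℝ, ContDiff ℝ ∞ β ∧ (∀ θ θ' : Fin n → ℝ, (∀ k ∈ S, θ k = θ' k) → β θ = β θ') ∧
      β x = x j ∧ ∀ᶠ θ in 𝓝 x, f (Function.update θ j (β θ)) = 0 := by
  classical
  -- the map (θ, s) ↦ update θ j s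
  have hupd : ContDiff ℝ ∞ (fun v : (Fin n → ℝ) × ℝ => Function.update v.1 j v.2) := by
    rw [contDiff_pi]
    intro i
    by_cases h : i = j
    · subst h; simp only [Function.update_self]; exact contDiff_snd
    · simp only [Function.update_of_ne h]
      exact (contDiff_apply ℝ ℝ i).comp contDiff_fst
  set H : (Fin n → ℝ) × ℝ → ℝ := fun v => f (Function.update v.1 j v.2) with hH
  have hHs : ContDiff ℝ ∞ H := hf.comp hupd
  have hxu : Function.update x j (x j) = x := Function.update_eq_self j x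
  have hu : H (x, x j) = 0 := by rw [hH]; simp only [hxu]; exact hx
  have hdH : fderiv ℝ H (x, x j) (0, 1) ≠ 0 := by
    have h1 : HasDerivAt (fun s : ℝ => H (x, x j + s)) (fderiv ℝ H (x, x j) (0, 1)) 0 := by
      have h2 : HasFDerivAt H (fderiv ℝ H (x, x j)) ((fun s : ℝ => (x, x j + s)) 0) := by
        simp only [add_zero]
        exact (hHs.differentiable (by simp)).differentiableAt.hasFDerivAt
      have h3 : HasDerivAt (fun s : ℝ => (x, x j + s)) ((0 : Fin n → ℝ), (1:ℝ)) 0 :=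
        (hasDerivAt_const (0:ℝ) x).prodMk ((hasDerivAt_id (0:ℝ)).const_add (x j))
      exact h2.comp_hasDerivAt (0:ℝ) h3
    have h4 : HasDerivAt (fun s : ℝ => H (x, x j + s)) (fderiv ℝ f x (Pi.single j 1)) 0 := by
      have h5 : (fun s : ℝ => H (x, x j + s)) = fun s => f (x + s • Pi.single j (1:ℝ)) := by
        funext s
        rw [hH]
        simp only
        congr 1
        funext i
        by_cases h : i = j
        · subst h; simp
        · simp [h]
      rw [h5]
      have h6 : HasDerivAt (fun s : ℝ => x + s • (Pi.single j (1:ℝ) : Fin n → ℝ)) (Pi.single j 1) 0 := by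
        have := ((hasDerivAt_id (0:ℝ)).smul_const (Pi.single j (1:ℝ) : Fin n → ℝ)).const_add x
        simpa using this
      have h7 : HasFDerivAt f (fderiv ℝ f x) ((fun s : ℝ => x + s • (Pi.single j (1:ℝ) : Fin n → ℝ)) 0) := by
        simp only [zero_smul, add_zero]
        exact (hf.differentiable (by simp)).differentiableAt.hasFDerivAt
      exact h7.comp_hasDerivAt (0:ℝ) h6
    rw [h1.unique h4]
    exact hd
  obtain ⟨ψ, hψ0, hψ⟩ := exists_implicit_local hHs hu hdH
  simp only at hψ0 hψ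
  obtain ⟨ρ, hρ, hball⟩ := Metric.eventually_nhds_iff.mp hψ
  let χ : ContDiffBump x := ⟨ρ / 4, ρ / 2, by positivity, by linarith⟩
  have hβ0 : ContDiff ℝ ∞ (fun θ => χ θ * ψ θ) := by
    rw [contDiff_iff_contDiffAt]
    intro θ
    by_cases hθ : dist θ x < ρ
    · exact χ.contDiff.contDiffAt.mul (hball hθ).1
    · have : (fun θ => χ θ * ψ θ) =ᶠ[𝓝 θ] fun _ => 0 := by
        have hopen : IsOpen {θ' : Fin n → ℝ | ρ / 2 < dist θ' x} :=
          isOpen_lt continuous_const (continuous_id.dist continuous_const)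
        have hmem : θ ∈ {θ' : Fin n → ℝ | ρ / 2 < dist θ' x} := by
          push Not at hθ
          show ρ / 2 < dist θ x
          linarith
        filter_upwards [hopen.mem_nhds hmem] with θ' hθ'
        have : χ θ' = 0 := χ.zero_of_le_dist (le_of_lt hθ')
        rw [this, zero_mul]
      exact contDiffAt_const.congr_of_eventuallyEq this
  -- projection
  set π : (Fin n → ℝ) → (Fin n → ℝ) := fun θ k => if k ∈ S then θ k else x k with hπ
  have hπs : ContDiff ℝ ∞ π := by
    rw [contDiff_pi]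
    intro i
    rw [hπ]
    by_cases h : i ∈ S
    · simp only [h, if_true]; exact contDiff_apply ℝ ℝ i
    · simp only [h, if_false]; exact contDiff_const
  have hπx : π x = x := by
    rw [hπ]; funext k; simp
  refine ⟨fun θ => χ (π θ) * ψ (π θ), hβ0.comp hπs, ?_, ?_, ?_⟩
  · intro θ θ' h
    have : π θ = π θ' := by
      rw [hπ]; funext k
      by_cases hk : k ∈ S
      · simp only [hk, if_true]; exact h k hk
      · simp only [hk, if_false]
    simp only [this]
  · simp only [hπx, hψ0]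
    have : χ x = 1 := χ.one_of_mem_closedBall (by simp [χ.rIn_pos.le])
    rw [this, one_mul]
  · have hcont : Tendsto π (𝓝 x) (𝓝 x) := by
      have := hπs.continuous.tendsto x
      rwa [hπx] at this
    have hev : ∀ᶠ θ in 𝓝 x, dist θ x < ρ / 4 := Metric.ball_mem_nhds x (by positivity)
    filter_upwards [hcont.eventually hev] with θ hθ
    have h1 : χ (π θ) = 1 := χ.one_of_mem_closedBall (Metric.mem_closedBall.mpr hθ.le)
    have h2 := (hball (show dist (π θ) x < ρ by linarith)).2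
    simp only [h1, one_mul]
    rw [← h2, hH]
    simp only
    refine hdep _ _ ?_
    intro k hk
    rcases Finset.mem_insert.mp hk with rfl | hk
    · simp
    · have hkj : k ≠ j := fun h => hj (h ▸ hk)
      rw [Function.update_of_ne hkj, Function.update_of_ne hkj, hπ]
      simp only [hk, if_true]

end Pool.Agent.Helper49.FA
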